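import Pool.Agent.H.MP_28dc43.A

set_option autoImplicit false
open Set Filter Topology Ordinal

namespace Pool.Agent.H.MP_526336

open Pool.Agent.H.MP_d2b9e5 (Om Om1 Om2)
open Pool.Agent.H.MP_28dc43 (o2 supN supW lim2 pos2 inj bdd)

variable {K Θ : Type} [TopologicalSpace K] [CompactSpace K] {h : K → Θ → ℝ}

theorem dfin (hc : Continuous h) (hi : Function.Injective h) {f : K → ℝ} (hf : Continuous f)
    {ε : ℝ} (hε : 0 < ε) : ∃ u : Finset Θ, ∀ p q, (∀ i ∈ u, h p i = h q i) → |f p - f q| < ε := by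
  have hK : IsCompact {p : K × K | ε ≤ |f p.1 - f p.2|} :=
    (isClosed_le continuous_const (by fun_prop)).isCompact
  obtain ⟨u, hu⟩ := hK.elim_finite_subfamily_closed (fun i => {p | h p.1 i = h p.2 i})
    (fun i => isClosed_eq (by fun_prop) (by fun_prop)) (by
      refine eq_empty_of_forall_notMem fun p hp => ?_
      have e : p.1 = p.2 := hi (funext fun i => mem_iInter.1 hp.2 i)
      have h2 : ε ≤ |f p.1 - f p.2| := hp.1
      rw [e, _root_.sub_self, abs_zero] at h2
      exact absurd h2 (not_le.2 hε))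
  refine ⟨u, fun p q hpq => ?_⟩
  by_contra hn
  exact (eq_empty_iff_forall_notMem.1 hu (p, q)) ⟨not_lt.1 hn, mem_iInter₂.2 hpq⟩

theorem dcnt (hc : Continuous h) (hi : Function.Injective h) {f : K → ℝ} (hf : Continuous f) :
    ∃ s : Set Θ, s.Countable ∧ ∀ p q, (∀ i ∈ s, h p i = h q i) → f p = f q := by
  choose u hu using fun n : ℕ => dfin hc hi hf (Nat.one_div_pos_of_nat (n := n))
  refine ⟨⋃ n, u n, countable_iUnion fun n => (u n).countable_toSet, fun x y hxy => ?_⟩
  by_contra hn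
  obtain ⟨n, hn'⟩ := exists_nat_one_div_lt (abs_pos.2 (sub_ne_zero.2 hn))
  exact absurd (hu n x y fun i hi => hxy i (mem_iUnion.2 ⟨n, hi⟩)) (not_lt.2 hn'.le)

theorem ret (hc : Continuous h) (hd : Dense {p | {θ | h p θ ≠ 0}.Countable}) (T0 : Set Θ) :
    ∃ (T : Set Θ) (r : K → K) (D : Set K), T0.Countable → T0 ⊆ T ∧ T.Countable ∧ D.Countable ∧
      ∀ p, r p ∈ closure D ∧ (∀ θ ∈ T, h (r p) θ = h p θ) ∧ ∀ θ ∉ T, h (r p) θ = 0 := by
  by_cases h0 : T0.Countable
  swap
  · exact ⟨∅, id, ∅, fun h => absurd h h0⟩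
  have den : ∀ T : Set Θ, ∃ D : Set K, D.Countable ∧ (∀ p ∈ D, {θ | h p θ ≠ 0}.Countable) ∧
      (T.Countable → ∀ p, T.domRestrict (h p) ∈ closure ((fun q => T.domRestrict (h q)) '' D)) := by
    intro T
    by_cases hT : T.Countable
    · have := hT.to_subtype
      obtain ⟨t, h1, h2, h3⟩ := (TopologicalSpace.IsSeparable.of_separableSpace
        ((fun q => T.domRestrict (h q)) '' {p | {θ | h p θ ≠ 0}.Countable})
        ).exists_countable_dense_subset
      choose g hg1 hg2 using h1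
      have := h2.to_subtype
      refine ⟨range fun y : t => g y.2, countable_range _, ?_, fun _ p => ?_⟩
      · rintro _ ⟨y, rfl⟩; exact hg1 y.2
      · have h4 := mem_closure_image (f := fun q => T.domRestrict (h q))
          ((Pi.continuous_domRestrict _).comp hc).continuousAt (hd p)
        refine closure_mono (s := t) (fun y hy => mem_image_of_mem _ (mem_range_self
          (f := fun y : t => g y.2) ⟨y, hy⟩) |> (hg2 hy ▸ ·)) ?_
        exact closure_minimal h3 isClosed_closure h4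
    · exact ⟨∅, countable_empty, by simp, fun h => absurd h hT⟩
  choose D D1 D2 D3 using den
  let nx : Set Θ → Set Θ := fun T => T ∪ ⋃ p ∈ D T, {θ | h p θ ≠ 0}
  let T : ℕ → Set Θ := fun n => nx^[n] T0
  have t1 : ∀ n, T (n + 1) = nx (T n) := fun n => Function.iterate_succ_apply' _ _ _
  have t2 : ∀ n, (T n).Countable := fun n => by
    induction n with
    | zero => exact h0
    | succ n ih => rw [t1]; exact ih.union ((D1 _).biUnion (D2 _))
  have key : ∀ p, ∃ q ∈ closure (⋃ n, D (T n)), ∀ θ ∈ ⋃ n, T n, h q θ = h p θ := by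
    intro p
    have hcl : ∀ n, IsClosed (closure (⋃ n, D (T n)) ∩ {q | ∀ i ∈ T n, h q i = h p i}) := fun n => by
      refine isClosed_closure.inter ?_
      simp only [ofPred_forall]
      exact isClosed_iInter fun i => isClosed_iInter fun _ =>
        isClosed_eq (by fun_prop) continuous_const
    obtain ⟨k, hk⟩ := IsCompact.nonempty_iInter_of_sequence_nonempty_isCompact_isClosed
      (fun n => closure (⋃ n, D (T n)) ∩ {q | ∀ i ∈ T n, h q i = h p i})
      (fun n k hk => And.intro hk.1 fun i hi' => hk.2 i (by rw [t1]; exact Or.inl hi'))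
      (fun n => by
        have h2 : IsClosed ((fun q => (T n).domRestrict (h q)) '' closure (⋃ n, D (T n))) :=
          (isClosed_closure.isCompact.image ((Pi.continuous_domRestrict _).comp hc)).isClosed
        obtain ⟨k, hk, hk'⟩ := closure_minimal (image_mono fun z hz => subset_closure
          (mem_iUnion.2 ⟨n, hz⟩)) h2 (D3 _ (t2 n) p)
        exact ⟨k, hk, fun i hi' => congrFun hk' ⟨i, hi'⟩⟩) (hcl 0).isCompact hcl
    refine ⟨k, (mem_iInter.1 hk 0).1, fun i hi' => ?_⟩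
    obtain ⟨n, hn⟩ := mem_iUnion.1 hi'
    exact (mem_iInter.1 hk n).2 i hn
  choose r r1 r2 using key
  refine ⟨⋃ n, T n, r, ⋃ n, D (T n), fun _ => ⟨subset_iUnion T 0, countable_iUnion t2,
    countable_iUnion fun n => D1 _, fun p => ⟨r1 p, r2 p, fun θ hθ => ?_⟩⟩⟩
  refine closure_minimal (t := {q | h q θ = 0}) (fun q hq => ?_)
    (isClosed_eq (by fun_prop) continuous_const) (r1 p)
  obtain ⟨n, hn⟩ := mem_iUnion.1 hq
  by_contra hne
  exact hθ (mem_iUnion.2 ⟨n + 1, by rw [t1]; exact Or.inr (mem_iUnion₂.2 ⟨q, hn, hne⟩)⟩)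

def BV (C : ℝ) (ν : Ordinal.{0} → ℝ) : Prop :=
  ∀ (a b : ℕ → Ordinal.{0}) (s : ℕ → ℝ) (n : ℕ), (∀ k, a k ≤ b k) → (∀ k, b k ≤ a (k + 1)) →
    (∀ k, s k = 1 ∨ s k = -1) → |∑ k ∈ Finset.range n, s k * (ν (b k) - ν (a k))| ≤ C * √n

theorem big (C : ℝ) {ε : ℝ} (hε : 0 < ε) : ∃ N : ℕ, C * √N < N * ε := by
  obtain ⟨M, hM⟩ := exists_nat_gt (|C| / ε)
  have h0 : (0 : ℝ) < M := lt_of_le_of_lt (by positivity) hM
  refine ⟨M * M, ?_⟩
  rw [Nat.cast_mul, Real.sqrt_mul_self h0.le]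
  rw [div_lt_iff₀ hε] at hM
  nlinarith [le_abs_self C]

theorem stab {C : ℝ} {ν : Ordinal.{0} → ℝ} (hν : BV C ν) :
    ∃ a < o2, ∀ b, a ≤ b → b < o2 → ν b = ν a := by
  have h1 : ∀ n : ℕ, ∃ a < o2, ∀ b c, a ≤ b → b ≤ c → c < o2 →
      |ν c - ν b| ≤ 1 / ((n : ℝ) + 1) := by
    intro n
    by_contra hn
    push Not at hn
    choose! b c h1 h2 h3 h4 using hn
    let u : ℕ → Ordinal.{0} := fun k => c^[k] 0
    have u1 : ∀ k, u (k + 1) = c (u k) := fun k => Function.iterate_succ_apply' _ _ _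
    have u2 : ∀ k, u k < o2 := fun k => by
      induction k with
      | zero => exact pos2
      | succ k ih => rw [u1]; exact h3 _ ih
    obtain ⟨N, hN⟩ := big C (Nat.one_div_pos_of_nat (n := n))
    have := hν (fun k => b (u k)) (fun k => c (u k))
      (fun k => if 0 ≤ ν (c (u k)) - ν (b (u k)) then 1 else -1) N (fun k => h2 _ (u2 k))
      (fun k => u1 k ▸ h1 _ (u2 (k + 1))) (fun k => by split_ifs <;> simp)
    have h5 := Finset.card_nsmul_le_sum (Finset.range N) (fun k =>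
      (if 0 ≤ ν (c (u k)) - ν (b (u k)) then 1 else -1) * (ν (c (u k)) - ν (b (u k))))
      (1 / ((n : ℝ) + 1)) fun k _ => (h4 _ (u2 k)).le.trans (by
        split_ifs with h
        · rw [abs_of_nonneg h, one_mul]
        · rw [abs_of_neg (not_le.1 h), neg_one_mul])
    rw [Finset.card_range, _root_.nsmul_eq_mul] at h5
    linarith [le_abs_self (∑ k ∈ Finset.range N, (if 0 ≤ ν (c (u k)) - ν (b (u k)) then 1 else -1) *
      (ν (c (u k)) - ν (b (u k))))]
  choose a h2 h3 using h1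
  refine ⟨⨆ n, a n, supN h2, fun b hb hb' => ?_⟩
  by_contra hn
  obtain ⟨n, hn'⟩ := exists_nat_one_div_lt (abs_pos.2 (sub_ne_zero.2 hn))
  exact absurd (h3 n _ b (Ordinal.le_iSup a n) hb hb') (not_le.2 hn')

theorem nv (hc : Continuous h) (hi : Function.Injective h)
    (hd : Dense {p | {θ | h p θ ≠ 0}.Countable}) (x : Ordinal.{0} → K → ℝ)
    (hx : ∀ a, Continuous (x a)) {C c : ℝ} (h1 : ∀ p, BV C fun a => x a p) (hc0 : 0 < c)
    (h2 : ∀ d < o2, ∃ p, ∀ a, x a p = if d < a then c else 0) : False := by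
  classical
  choose hS r D hh using ret hc hd
  have ev : ∀ A : Set Θ, ∃ s, A.Countable → s < o2 ∧ ∀ b, s ≤ b → b < o2 → ∀ p,
      x b (r A p) = x s (r A p) := by
    intro A
    by_cases hA : A.Countable
    swap
    · exact ⟨0, fun h => absurd h hA⟩
    obtain ⟨p0, -⟩ := h2 0 pos2
    obtain ⟨e, he⟩ := ((hh A hA).2.2.1.insert p0).exists_eq_range (insert_nonempty _ _)
    choose s s1 s2 using fun n => stab (h1 (e n))
    refine ⟨⨆ n, s n, fun _ => ⟨supN s1, fun b hb hb' p => ?_⟩⟩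
    refine closure_minimal (t := {q | x b q = x (⨆ n, s n) q}) (fun q hq => ?_)
      (isClosed_eq (hx _) (hx _)) ((hh A hA).2.2.2 p).1
    obtain ⟨n, rfl⟩ : q ∈ range e := he ▸ mem_insert_of_mem _ hq
    exact (s2 n b ((Ordinal.le_iSup s n).trans hb) hb').trans
      (s2 n _ (Ordinal.le_iSup s n) (supN s1)).symm
  choose s hs using ev
  choose B0 C2 C3 using fun a => dcnt hc hi (hx a)
  let y : Set Θ → K → ℝ := fun A p => x (s A) (r A p)
  obtain ⟨A0, A1, A2⟩ : ∃ A0 : Set Θ, A0.Countable ∧ ∀ A : Set Θ, A.Countable → hS A0 ⊆ A →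
      ∀ p, |y A p - y A0 p| ≤ c / 4 := by
    by_contra hn
    push Not at hn
    choose! nx n1 n2 n3 using hn
    let u : ℕ → Set Θ := fun k => nx^[k] ∅
    have u1 : ∀ k, u (k + 1) = nx (u k) := fun k => Function.iterate_succ_apply' _ _ _
    have u2 : ∀ k, (u k).Countable := fun k => by
      induction k with
      | zero => exact countable_empty
      | succ k ih => rw [u1]; exact n1 _ ih
    have u3 : Monotone fun k => hS (u k) := monotone_nat_of_le_succ fun k =>
      (u1 k ▸ n2 _ (u2 k)).trans (hh _ (u2 _)).1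
    let a := ⨆ k, s (u k)
    have a1 : ∀ k p, x a (r (u k) p) = y (u k) p := fun k => (hs _ (u2 k)).2 a
      (Ordinal.le_iSup (fun k => s (u k)) k) (supN fun k => (hs _ (u2 k)).1)
    obtain ⟨t, ht⟩ := dfin hc hi (hx a) (show 0 < c / 4 by positivity)
    obtain ⟨k, hk⟩ : ∃ k, ∀ m ∈ t, m ∈ hS (u (k + 1)) → m ∈ hS (u k) := by
      refine ((eventually_all_finset t).2 fun m _ => ?_ : ∀ᶠ k in atTop, _).exists
      by_cases hm : ∃ k, m ∈ hS (u k)
      · obtain ⟨k, hk⟩ := hm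
        exact (eventually_ge_atTop k).mono fun n hn _ => u3 hn hk
      · exact .of_forall fun n hn => absurd ⟨_, hn⟩ hm
    obtain ⟨p, b1⟩ := n3 _ (u2 k)
    rw [← u1, ← a1, ← a1] at b1
    refine absurd (ht _ _ fun m hm => ?_) (not_lt.2 b1.le)
    have g := fun k => (hh _ (u2 k)).2.2.2 p
    by_cases h : m ∈ hS (u (k + 1))
    · rw [(g _).2.1 m h, (g _).2.1 m (hk m hm h)]
    · rw [(g _).2.2 m h, (g _).2.2 m fun h' => h (u3 (Nat.le_succ k) h')]
  obtain ⟨ξ0, -⟩ := bdd countable_empty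
  have : Nonempty Om := ⟨ξ0⟩
  choose! ρ hr using fun (b : Ordinal.{0}) (h : b < o2) => inj h
  have cls : ∀ d < o2, ∃ e < o2, d < e ∧ ∀ p, {θ | h p θ ≠ 0}.Countable →
      ∃ a < e, ∀ b, a ≤ b → b < e → |x b p - y A0 p| ≤ c / 4 := by
    intro d hd
    let B : (Om → Ordinal.{0}) → Om → Set Θ := fun u ξ =>
      hS A0 ∪ ⋃ η ∈ Iio ξ, ⋃ a ∈ {a | a < u η ∧ ρ (u η) a < ξ}, B0 a
    let H : (ξ : Om) → ((η : Om) → η < ξ → Ordinal.{0}) → Ordinal.{0} := fun ξ v =>
      max d (s (B (fun η => if h : η < ξ then v η h else 0) ξ)) + 1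
    let u : Om → Ordinal.{0} := (wellFounded_lt (α := Om)).fix H
    have u1 : ∀ ξ, u ξ = max d (s (B u ξ)) + 1 := fun ξ => by
      have e : B (fun η => if _ : η < ξ then u η else 0) ξ = B u ξ := by
        simp only [B]
        congr 1
        refine iUnion₂_congr fun η hη => ?_
        rw [dif_pos (show η < ξ from hη)]
      rw [← e]
      exact WellFounded.fix_eq _ _ _
    have u2 : ∀ ξ, (∀ η < ξ, u η < o2) → (B u ξ).Countable := fun ξ h =>
      (hh _ A1).2.1.union ((Om2 ξ).biUnion fun η hη => Countable.biUnion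
        (countable_of_injective_of_countable_image ((hr _ (h η hη)).mono fun a ha => ha.1)
          ((Om2 ξ).mono (by rintro _ ⟨a, ha, rfl⟩; exact ha.2))) fun a _ => C2 _)
    have u3 : ∀ ξ, u ξ < o2 := fun ξ => by
      induction ξ using WellFoundedLT.induction with
      | ind ξ ih => rw [u1]; exact lim2 (max_lt hd (hs _ (u2 ξ ih)).1)
    have u4 : ∀ ξ, (B u ξ).Countable := fun ξ => u2 ξ fun η _ => u3 η
    refine ⟨⨆ ξ, u ξ, supW u3, lt_of_lt_of_le (u1 ξ0 ▸ (le_max_left _ _).trans_lt (lt_add_one _))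
      (Ordinal.le_iSup u ξ0), fun p f1 => ?_⟩
    have k1 : ∀ m : Θ, ∃ ξ, (∃ a < ⨆ ξ, u ξ, m ∈ B0 a) → ∀ ζ, ξ < ζ → m ∈ B u ζ := by
      intro m
      by_cases hm : ∃ a < ⨆ ξ, u ξ, m ∈ B0 a
      · obtain ⟨a, a1, a2⟩ := hm
        obtain ⟨η, hη⟩ := Ordinal.lt_iSup_iff.1 a1
        exact ⟨max η (ρ (u η) a), fun _ ζ hζ => Or.inr (mem_iUnion₂.2 ⟨η, (le_max_left _ _).trans_lt
          hζ, mem_iUnion₂.2 ⟨a, ⟨hη, (le_max_right _ _).trans_lt hζ⟩, a2⟩⟩)⟩
      · exact ⟨ξ0, fun h => absurd h hm⟩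
    choose k hk using k1
    obtain ⟨ζ, hζ⟩ := bdd (f1.image k)
    have g := hh _ (u4 ζ)
    refine ⟨s (B u ζ), lt_of_lt_of_le (u1 ζ ▸ (le_max_right _ _).trans_lt
      (lt_add_one _)) (Ordinal.le_iSup u ζ), fun b b1 b2 => ?_⟩
    have e : x b p = x b (r (B u ζ) p) := C3 b _ _ fun m hm => by
      by_cases h : m ∈ hS (B u ζ)
      · rw [(g.2.2.2 p).2.1 m h]
      · rw [(g.2.2.2 p).2.2 m h]
        by_contra hne
        exact h (g.1 (hk m ⟨b, b2, hm⟩ ζ (hζ _ ⟨m, hne, rfl⟩)))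
    rw [e, (hs _ (u4 ζ)).2 b b1 (b2.trans (supW u3))]
    exact A2 _ (u4 ζ) subset_union_left p
  choose! q p1 p2 p3 using cls
  let d : ℕ → Ordinal.{0} := fun k => q^[k] 0
  have d1 : ∀ k, d (k + 1) = q (d k) := fun k => Function.iterate_succ_apply' _ _ _
  have d2 : ∀ k, d k < o2 := fun k => by
    induction k with
    | zero => exact pos2
    | succ k ih => rw [d1]; exact p1 _ ih
  have d3 : StrictMono d := strictMono_nat_of_lt_succ fun k => d1 k ▸ p2 _ (d2 k)
  obtain ⟨N, hN'⟩ := big (C * √2) (show 0 < c / 2 by positivity)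
  let sg : ℕ → ℝ := fun k => if k < N then -1 else 1
  have sg0 : ∀ k, sg k = 1 ∨ sg k = -1 := fun k => by simp only [sg]; split_ifs <;> simp
  have sg1 : ∀ F : ℕ → ℝ, ∑ k ∈ Finset.range (N + N), sg k * F k =
      ∑ k ∈ Finset.range N, F (N + k) - ∑ k ∈ Finset.range N, F k := by
    intro F
    rw [Finset.sum_range_add, Finset.sum_congr rfl (g := fun k => - F k) fun k hk => by
      simp [sg, Finset.mem_range.1 hk], Finset.sum_neg_distrib]
    simp [sg, neg_add_eq_sub]
  have key : ∀ p, |∑ k ∈ Finset.range (N + N), sg k * x (d (k + 1)) p| ≤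
      C * √2 * √N + N * (c / 2) := by
    intro p
    refine closure_minimal (t := {p | |∑ k ∈ Finset.range (N + N), sg k * x (d (k + 1)) p| ≤
      C * √2 * √N + N * (c / 2)}) (fun p hp => ?_) (isClosed_le (by fun_prop) continuous_const)
      (hd p)
    choose a a1 a2 using fun k => d1 k ▸ p3 _ (d2 k) p hp
    have b1 := h1 p (fun k => max (a k) (d k)) (fun k => d (k + 1)) sg (N + N)
      (fun k => (max_lt (a1 k) (d3 (Nat.lt_succ_self k))).le) (fun k => le_max_right _ _) sg0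
    have b2 : |∑ k ∈ Finset.range (N + N), sg k * (x (max (a k) (d k)) p - y A0 p)| ≤
        (N + N) * (c / 4) := by
      refine (Finset.abs_sum_le_sum_abs _ _).trans ((Finset.sum_le_card_nsmul _ _ (c / 4)
        fun k _ => ?_).trans (by simp))
      rw [abs_mul, show |sg k| = 1 by rcases sg0 k with e | e <;> simp [e], one_mul]
      exact a2 k _ (le_max_left _ _) (max_lt (a1 k) (d3 (Nat.lt_succ_self k)))
    simp only [_root_.mul_sub, Finset.sum_sub_distrib] at b1 b2
    rw [sg1 fun _ => y A0 p, _root_.sub_self, _root_.sub_zero] at b2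
    have b5 := abs_sub_abs_le_abs_sub (∑ k ∈ Finset.range (N + N), sg k * x (d (k + 1)) p)
      (∑ k ∈ Finset.range (N + N), sg k * x (max (a k) (d k)) p)
    rw [show ((N + N : ℕ) : ℝ) = 2 * N by push_cast; ring, Real.sqrt_mul zero_le_two] at b1
    rw [mem_ofPred_eq]
    linarith
  obtain ⟨p, hp⟩ := h2 (d N) (d2 N)
  have := key p
  simp only [hp, d3.lt_iff_lt] at this
  rw [sg1 fun k => if N < k + 1 then c else 0, Finset.sum_eq_zero (s := Finset.range N)
    (f := fun k => if N < k + 1 then c else 0) fun k hk =>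
      if_neg (by have := Finset.mem_range.1 hk; omega),
    Finset.sum_congr rfl (g := fun _ => c) fun k _ => if_pos (by omega)] at this
  simp only [Finset.sum_const, Finset.card_range, _root_.nsmul_eq_mul, _root_.sub_zero] at this
  linarith [le_abs_self (N * c)]

end Pool.Agent.H.MP_526336
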