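import Pool.Agent.H.MP_526336.A

set_option autoImplicit false
open Set Filter Topology Ordinal MeasureTheory CompactlySupported

namespace Pool.Agent.H.MP_526336

open Pool.Agent.H.MP_28dc43 (o2)

theorem sepd {K Z : Type} [TopologicalSpace K] [CompactSpace K] [T2Space K]
    [NormedAddCommGroup Z] [NormedSpace ℝ Z] (j : Z →L[ℝ] C(K, ℝ))
    (hs : ∀ z, ‖z‖ ≤ ‖j z ⊔ 0‖) (hi : Function.Injective j)
    (hc : (range fun k : K => (ContinuousMap.evalCLM ℝ k).comp j).Countable) :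
    TopologicalSpace.SeparableSpace (StrongDual ℝ Z) := by
  let Δ : K → StrongDual ℝ Z := fun k => (ContinuousMap.evalCLM ℝ k).comp j
  rw [← TopologicalSpace.isSeparable_univ_iff]
  refine (hc.isSeparable.span (R := ℝ)).closure.mono fun φ _ => ?_
  let e := LinearEquiv.ofInjective j.toLinearMap hi
  obtain ⟨g, g1, g2⟩ := exists_extension_of_le_sublinear
    (⟨LinearMap.range j.toLinearMap, φ.toLinearMap.comp e.symm.toLinearMap⟩ : C(K, ℝ) →ₗ.[ℝ] ℝ)
    (fun f => ‖φ‖ * ‖f ⊔ 0‖) (fun c hc f => by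
      have : (c • f) ⊔ 0 = c • (f ⊔ 0) := by
        ext k
        simp [mul_max_of_nonneg _ _ hc.le]
      rw [this, norm_smul, Real.norm_of_nonneg hc.le]; ring) (fun f f' => by
      rw [← mul_add]
      refine mul_le_mul_of_nonneg_left ((ContinuousMap.norm_le _ (by positivity)).2 fun k => ?_)
        (norm_nonneg _)
      have a1 := (f ⊔ 0).norm_coe_le_norm k
      have a2 := (f' ⊔ 0).norm_coe_le_norm k
      simp only [ContinuousMap.sup_apply, ContinuousMap.zero_apply, ContinuousMap.add_apply,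
        Real.norm_eq_abs] at a1 a2 ⊢
      rw [abs_of_nonneg (le_max_right _ _)] at a1 a2 ⊢
      exact max_le (add_le_add (le_of_max_le_left a1) (le_of_max_le_left a2)) (by positivity))
    (fun x => by
      obtain ⟨z, rfl⟩ := e.surjective x
      change φ (e.symm (e z)) ≤ ‖φ‖ * ‖j z ⊔ 0‖
      rw [e.symm_apply_apply]
      exact (le_abs_self _).trans ((φ.le_opNorm z).trans
        (mul_le_mul_of_nonneg_left (hs z) (norm_nonneg _))))
  have g3 : ∀ z, g (j z) = φ z := fun z => (g1 (e z)).trans (congrArg φ (e.symm_apply_apply z))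
  let Λ : C_c(K, ℝ) →ₚ[ℝ] ℝ := PositiveLinearMap.mk₀
    { toFun := fun f => g f.toContinuousMap
      map_add' := fun a b => g.map_add _ _
      map_smul' := fun c a => g.map_smul _ _ } fun f hf => by
      have a1 := g2 (-f.toContinuousMap)
      have a2 : -f.toContinuousMap ⊔ 0 = 0 := sup_eq_right.2 fun k => neg_nonpos.2 (hf k)
      rw [a2, norm_zero, mul_zero, map_neg] at a1
      exact neg_nonpos.1 a1
  borelize K
  borelize (StrongDual ℝ Z)
  let μ := RealRMK.rieszMeasure Λ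
  have hm : StronglyMeasurable Δ := by
    refine stronglyMeasurable_iff_measurable_separable.2 ⟨fun U _ => ?_, hc.isSeparable⟩
    have : Δ ⁻¹' U = ⋃ d ∈ range Δ ∩ U, ⋂ z, {k | j z k = d z} := by
      ext k
      simp only [mem_preimage, mem_iUnion, mem_iInter, mem_ofPred_eq]
      exact ⟨fun h => ⟨_, ⟨⟨k, rfl⟩, h⟩, fun _ => rfl⟩, fun ⟨d, h1, h2⟩ =>
        (ContinuousLinearMap.ext h2 : Δ k = d) ▸ h1.2⟩
    rw [this]
    exact MeasurableSet.biUnion (hc.mono inter_subset_left) fun d _ =>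
      (isClosed_iInter fun z => isClosed_eq (j z).continuous continuous_const).measurableSet
  have hI : Integrable Δ μ := Integrable.of_bound hm.aestronglyMeasurable ‖j‖ (.of_forall fun k =>
    ContinuousLinearMap.opNorm_le_bound _ j.opNorm_nonneg fun z =>
      ((j z).norm_coe_le_norm k).trans (j.le_opNorm z))
  have he : φ = ∫ k, Δ k ∂μ := ContinuousLinearMap.ext fun z => by
    rw [ContinuousLinearMap.integral_apply hI, ← g3]
    exact (RealRMK.integral_rieszMeasure Λ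
      (CompactlySupportedContinuousMap.continuousMapEquiv (j z))).symm
  rw [he]
  change _ ∈ (Submodule.span ℝ (range Δ)).topologicalClosure
  rcases eq_zero_or_neZero μ with h0 | h0
  · rw [h0, integral_zero_measure]; exact zero_mem _
  · rw [← measure_smul_average]
    exact Submodule.smul_mem _ _ ((Submodule.span ℝ (range Δ)).topologicalClosure.convex.average_mem
      (Submodule.isClosed_topologicalClosure _) (.of_forall fun k =>
        Submodule.le_topologicalClosure _ (Submodule.subset_span ⟨k, rfl⟩)) hI)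

abbrev W : Type := o2.ToType

def Lw : Set (W → ℝ) := {c | (∀ ξ, c ξ = 0 ∨ c ξ = 1) ∧ Antitone c}

def Par : Set ((ℕ → W → ℝ) × (ℕ → W → ℝ) × (ℕ → ℝ)) :=
  {p | (∀ k, p.1 k ∈ Lw) ∧ (∀ k, p.2.1 k ∈ Lw) ∧ (∀ k, p.2.2 k = 1 ∨ p.2.2 k = -1) ∧
    (∀ k, p.1 k ≤ p.2.1 k) ∧ ∀ k, p.2.1 k ≤ p.1 (k + 1)}

noncomputable def FF (n : ℕ) (p : (ℕ → W → ℝ) × (ℕ → W → ℝ) × (ℕ → ℝ)) : W → ℝ :=
  (√n)⁻¹ • ∑ k ∈ Finset.range n, p.2.2 k • (p.2.1 k - p.1 k)

def KK : Set (W → ℝ) := ⋃ n, FF n '' Par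

theorem Lc : IsCompact Lw := by
  refine (isCompact_univ_pi fun _ : W => (toFinite ({0, 1} : Set ℝ)).isCompact
    ).of_isClosed_subset ?_ fun c hc ξ _ => hc.1 ξ
  refine IsClosed.inter (s₁ := {c : W → ℝ | ∀ ξ, c ξ = 0 ∨ c ξ = 1}) ?_ isClosed_antitone
  simp only [ofPred_forall]
  exact isClosed_iInter fun ξ => (isClosed_eq (by fun_prop) continuous_const).union
    (isClosed_eq (by fun_prop) continuous_const)

theorem Pc : IsCompact Par := by
  have h1 := isCompact_univ_pi fun _ : ℕ => Lc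
  have h2 := h1.prod (h1.prod (isCompact_univ_pi fun _ : ℕ =>
    (toFinite ({1, -1} : Set ℝ)).isCompact))
  have h3 : IsClosed {p : (ℕ → W → ℝ) × (ℕ → W → ℝ) × (ℕ → ℝ) |
      (∀ k, p.1 k ≤ p.2.1 k) ∧ ∀ k, p.2.1 k ≤ p.1 (k + 1)} := by
    simp only [ofPred_and, ofPred_forall]
    exact (isClosed_iInter fun k => isClosed_le (by fun_prop) (by fun_prop)).inter
      (isClosed_iInter fun k => isClosed_le (by fun_prop) (by fun_prop))
  convert h2.inter_right h3 using 1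
  ext p
  simp [Par, and_assoc]

theorem Fb {n : ℕ} {p} (hp : p ∈ Par) (ξ : W) : |FF n p ξ| ≤ (√n)⁻¹ := by
  simp only [FF, Pi.smul_apply, Finset.sum_apply, Pi.sub_apply, _root_.smul_eq_mul]
  rw [abs_mul, abs_of_nonneg (by positivity)]
  refine mul_le_of_le_one_right (by positivity) ((Finset.abs_sum_le_sum_abs _ _).trans
    ((Finset.sum_le_sum (g := fun k => p.1 (k + 1) ξ - p.1 k ξ) fun k _ => ?_).trans ?_))
  · rw [abs_mul, show |p.2.2 k| = 1 by rcases hp.2.2.1 k with e | e <;> simp [e], one_mul,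
      abs_of_nonneg (sub_nonneg.2 (hp.2.2.2.1 k ξ))]
    linarith [show p.2.1 k ξ ≤ p.1 (k + 1) ξ from hp.2.2.2.2 k ξ]
  · rw [Finset.sum_range_sub fun k => p.1 k ξ]
    rcases (hp.1 n).1 ξ with e | e <;> rcases (hp.1 0).1 ξ with e' | e' <;> rw [e, e'] <;> norm_num

theorem P0 : ((fun _ => 0, fun _ => 0, fun _ => 1) :
    (ℕ → W → ℝ) × (ℕ → W → ℝ) × (ℕ → ℝ)) ∈ Par :=
  ⟨fun _ => ⟨fun _ => Or.inl rfl, antitone_const⟩, fun _ => ⟨fun _ => Or.inl rfl, antitone_const⟩,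
    fun _ => Or.inl rfl, fun _ => le_rfl, fun _ => le_rfl⟩

theorem Kc : IsCompact KK := by
  refine isCompact_iff_ultrafilter_le_nhds'.2 fun f hf => ?_
  by_cases h : ∃ n, FF n '' Par ∈ f
  · obtain ⟨n, hn⟩ := h
    obtain ⟨x, h1, h2⟩ := (Pc.image (f := FF n) (by unfold FF; fun_prop)).ultrafilter_le_nhds' f hn
    exact ⟨x, mem_iUnion.2 ⟨n, h1⟩, h2⟩
  · push Not at h
    refine ⟨0, mem_iUnion.2 ⟨0, _, P0, by simp [FF]⟩, ?_⟩
    refine tendsto_id'.1 (tendsto_pi_nhds.2 fun ξ => Metric.tendsto_nhds.2 fun ε hε => ?_)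
    have ht : Tendsto (fun n : ℕ => (√n)⁻¹) atTop (𝓝 0) :=
      (Real.tendsto_sqrt_atTop.comp tendsto_natCast_atTop_atTop).inv_tendsto_atTop
    obtain ⟨N, hN⟩ := eventually_atTop.1 (ht.eventually (gt_mem_nhds hε))
    filter_upwards [hf, (biInter_finset_mem (Finset.range N)).2 fun n _ =>
      Ultrafilter.compl_mem_iff_notMem.2 (h n)] with x h1 h2
    obtain ⟨n, p, hp, rfl⟩ := mem_iUnion.1 h1
    have : N ≤ n := le_of_not_gt fun hn => mem_iInter₂.1 h2 n (Finset.mem_range.2 hn) ⟨p, hp, rfl⟩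
    simpa [Real.dist_eq] using (Fb hp ξ).trans_lt (hN n this)

instance cK : CompactSpace KK := isCompact_iff_compactSpace.1 Kc

theorem tr {S : Set W} (hS : S.Countable) : (S.domRestrict '' KK).Countable := by
  classical
  have := hS.to_subtype
  let v : Option S → S → ℝ := fun m ξ => m.elim 1 fun m => if ξ < m then 1 else 0
  have h1 : ∀ c ∈ Lw, S.domRestrict c ∈ Submodule.span ℤ (range v) := by
    intro c hc
    refine Submodule.subset_span ?_
    by_cases h : ∃ m : S, c m = 0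
    · obtain ⟨m, h2, h3⟩ := wellFounded_lt.has_min {m : S | c m = 0} h
      refine ⟨some m, funext fun ξ => ?_⟩
      change (if ξ < m then 1 else 0) = c ξ
      split_ifs with h4
      · exact ((hc.1 ξ).resolve_left fun e => h3 ξ e h4).symm
      · have h5 : c ξ ≤ c m := hc.2 (not_lt.1 h4)
        rcases hc.1 ξ with e | e
        · exact e.symm
        · rw [e, show c m = 0 from h2] at h5; norm_num at h5
    · exact ⟨none, funext fun ξ => ((hc.1 ξ).resolve_left fun e => h ⟨ξ, e⟩).symm⟩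
  refine (countable_iUnion fun n : ℕ => (Set.countable_coe_iff.1
    (inferInstance : Countable (Submodule.span ℤ (range v)))).image
      fun y => (√n)⁻¹ • y).mono ?_
  rintro _ ⟨_, hx, rfl⟩
  obtain ⟨n, p, hp, rfl⟩ := mem_iUnion.1 hx
  refine mem_iUnion.2 ⟨n, ∑ k ∈ Finset.range n, p.2.2 k •
    (S.domRestrict (p.2.1 k) - S.domRestrict (p.1 k)), Submodule.sum_mem _ fun k _ => ?_, ?_⟩
  · have := sub_mem (h1 _ (hp.2.1 k)) (h1 _ (hp.1 k))
    rcases hp.2.2.1 k with e | e <;> rw [e]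
    · rwa [one_smul]
    · rw [neg_one_smul]; exact neg_mem this
  · funext ξ
    simp [FF]

def ev (ξ : W) : C(KK, ℝ) := ⟨fun k => k.1 ξ, (continuous_apply ξ).comp continuous_subtype_val⟩

noncomputable def XS : Submodule ℝ C(KK, ℝ) := (Submodule.span ℝ (range ev)).topologicalClosure

def XX : Type := XS

noncomputable instance nX : NormedAddCommGroup XX := inferInstanceAs (NormedAddCommGroup XS)
noncomputable instance sX : NormedSpace ℝ XX := inferInstanceAs (NormedSpace ℝ XS)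
instance cX : CompleteSpace XX := (Submodule.isClosed_topologicalClosure _).completeSpace_coe

noncomputable def jX : XX →L[ℝ] C(KK, ℝ) := XS.subtypeL

theorem van (ψ : C(KK, ℝ) →L[ℝ] ℝ) (h : ∀ ξ, ψ (ev ξ) = 0) (z : XX) : ψ (jX z) = 0 :=
  MP_28dc43.agree (f := ψ) (g := 0) (by rintro _ ⟨ξ, rfl⟩; exact h ξ) z.2

theorem ng {k : W → ℝ} (hk : k ∈ KK) : -k ∈ KK := by
  obtain ⟨n, p, hp, rfl⟩ := mem_iUnion.1 hk
  refine mem_iUnion.2 ⟨n, (p.1, p.2.1, -p.2.2), ⟨hp.1, hp.2.1, fun k => ?_, hp.2.2.2⟩, ?_⟩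
  · rcases hp.2.2.1 k with e | e <;> simp [e]
  · simp [FF]

theorem asp (Z : Submodule ℝ XX) (hZ : TopologicalSpace.IsSeparable (Z : Set XX)) :
    TopologicalSpace.SeparableSpace (StrongDual ℝ Z) := by
  refine sepd (jX.comp Z.subtypeL) (fun z => ?_)
    (fun a b e => Subtype.ext (Subtype.ext e)) ?_
  · refine (ContinuousMap.norm_le z.1.1 (norm_nonneg _)).2 fun k => ?_
    have a1 := (z.1.1 ⊔ 0).norm_coe_le_norm k
    have a2 := (z.1.1 ⊔ 0).norm_coe_le_norm ⟨_, ng k.2⟩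
    have a3 := van (ContinuousMap.evalCLM ℝ k + ContinuousMap.evalCLM ℝ (⟨_, ng k.2⟩ : KK))
      (fun ξ => add_neg_cancel _) z.1
    change z.1.1 k + z.1.1 ⟨_, ng k.2⟩ = 0 at a3
    simp only [ContinuousMap.sup_apply, ContinuousMap.zero_apply, Real.norm_eq_abs] at a1 a2
    rw [abs_of_nonneg (le_max_right _ _)] at a1 a2
    change |z.1.1 k| ≤ ‖z.1.1 ⊔ 0‖
    exact abs_le.2 ⟨by linarith [le_of_max_le_left a2], le_of_max_le_left a1⟩
  · obtain ⟨D, D1, D2⟩ := hZ
    choose s s1 s2 using fun z : XX => dcnt (h := fun k : KK => k.1) continuous_subtype_val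
      Subtype.val_injective z.1.continuous
    have hS := D1.biUnion fun z _ => s1 z
    have h1 := tr hS
    choose g g1 g2 using fun y : (⋃ z ∈ D, s z).domRestrict '' KK => y.2
    have := h1.to_subtype
    refine (countable_range fun y => (ContinuousMap.evalCLM ℝ (⟨g y, g1 y⟩ : KK)).comp
      (jX.comp Z.subtypeL)).mono ?_
    rintro _ ⟨k, rfl⟩
    refine ⟨⟨_, k.1, k.2, rfl⟩, ContinuousLinearMap.ext fun z => ?_⟩
    refine closure_minimal (t := {z : XX | jX z ⟨g ⟨_, k.1, k.2, rfl⟩, g1 _⟩ = jX z k})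
      (fun z hz => s2 z _ _ fun i hi => congrFun (g2 ⟨_, k.1, k.2, rfl⟩)
        ⟨i, mem_iUnion₂.2 ⟨z, hz, hi⟩⟩) (isClosed_eq (by fun_prop) (by fun_prop)) (D2 z.2)

open Classical in
noncomputable def ct (a : Ordinal.{0}) : W → ℝ := fun ξ => if (ToType.mk.symm ξ).1 < a then 1 else 0

theorem ctL (a : Ordinal.{0}) : ct a ∈ Lw := by
  refine ⟨fun ξ => by unfold ct; split_ifs <;> simp, fun ξ η h => ?_⟩
  unfold ct
  split_ifs with h1 h2
  · exact le_rfl
  · exact absurd (lt_of_le_of_lt (Subtype.coe_le_coe.2 (ToType.mk.symm.monotone h)) h1) h2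
  all_goals norm_num

theorem ctm {a b : Ordinal.{0}} (h : a ≤ b) : ct a ≤ ct b := fun ξ => by
  unfold ct
  split_ifs with h1 h2
  · exact le_rfl
  · exact absurd (h1.trans_le h) h2
  all_goals norm_num

theorem ctK (a : Ordinal.{0}) : ct a ∈ KK := by
  refine mem_iUnion.2 ⟨1, (fun k => ct (if k = 0 then 0 else a), fun _ => ct a, fun _ => 1),
    ⟨fun _ => ctL _, fun _ => ctL _, fun _ => Or.inl rfl, fun k => ctm ?_, fun k => ctm ?_⟩, ?_⟩
  · split_ifs <;> simp
  · simp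
  · funext ξ
    simp [FF, ct]

noncomputable def xx (a : Ordinal.{0}) : StrongDual ℝ XX :=
  (ContinuousMap.evalCLM ℝ (⟨ct a, ctK a⟩ : KK)).comp jX

theorem xb (a b : ℕ → Ordinal.{0}) (s : ℕ → ℝ) (n : ℕ) (h1 : ∀ k, a k ≤ b k)
    (h2 : ∀ k, b k ≤ a (k + 1)) (h3 : ∀ k, s k = 1 ∨ s k = -1) :
    ‖∑ k ∈ Finset.range n, s k • (xx (b k) - xx (a k))‖ ≤ √n := by
  have hp : ((fun k => ct (a k), fun k => ct (b k), s) :
      (ℕ → W → ℝ) × (ℕ → W → ℝ) × (ℕ → ℝ)) ∈ Par :=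
    ⟨fun _ => ctL _, fun _ => ctL _, h3, fun k => ctm (h1 k), fun k => ctm (h2 k)⟩
  refine ContinuousLinearMap.opNorm_le_bound _ (Real.sqrt_nonneg _) fun z => ?_
  rcases Nat.eq_zero_or_pos n with rfl | hn
  · simp
  have := van (∑ k ∈ Finset.range n, s k • (ContinuousMap.evalCLM ℝ (⟨_, ctK (b k)⟩ : KK) -
    ContinuousMap.evalCLM ℝ (⟨_, ctK (a k)⟩ : KK)) - √n • ContinuousMap.evalCLM ℝ
      (⟨_, mem_iUnion.2 ⟨n, _, hp, rfl⟩⟩ : KK)) (fun ξ => by
    have h0 : √(n : ℝ) ≠ 0 := by positivity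
    simp [ev, FF, h0]) z
  rw [ContinuousLinearMap.sub_apply, _root_.sub_eq_zero] at this
  have e : (∑ k ∈ Finset.range n, s k • (xx (b k) - xx (a k))) z =
      √n * z.1 ⟨_, mem_iUnion.2 ⟨n, _, hp, rfl⟩⟩ := by
    refine Eq.trans ?_ this
    simp [xx]
  rw [e, norm_mul, Real.norm_of_nonneg (Real.sqrt_nonneg _)]
  exact mul_le_mul_of_nonneg_left (z.1.norm_coe_le_norm _) (Real.sqrt_nonneg _)

theorem xe {d : Ordinal.{0}} (hd : d < o2) :
    ∃ z : XX, ‖z‖ ≤ 1 ∧ ∀ a, xx a z = if d < a then 1 else 0 := by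
  refine ⟨⟨ev (ToType.mk ⟨d, hd⟩), Submodule.le_topologicalClosure _
    (Submodule.subset_span ⟨_, rfl⟩)⟩, (ContinuousMap.norm_le _ zero_le_one).2 fun k => ?_,
    fun a => ?_⟩
  · obtain ⟨n, p, hp, e⟩ := mem_iUnion.1 k.2
    change |k.1 _| ≤ 1
    rw [← e]
    refine (Fb hp _).trans ?_
    rcases Nat.eq_zero_or_pos n with rfl | hn
    · simp
    · exact inv_le_one_of_one_le₀ (Real.one_le_sqrt.2 (Nat.one_le_cast.2 hn))
  · change ct a _ = _
    simp [ct]

end Pool.Agent.H.MP_526336
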