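import Pool.Agent.H.MP_526336.B

set_option autoImplicit false
open Set Filter Topology

namespace Pool.Agent.H.MP_526336

variable {V : Type} [NormedAddCommGroup V] [NormedSpace ℝ V]

instance cB : CompactSpace {p : WeakDual ℝ V | ∀ v, ‖p v‖ ≤ ‖v‖} :=
  isCompact_iff_compactSpace.1 (by
    convert WeakDual.isCompact_closedBall (0 : StrongDual ℝ V) 1 using 1
    ext φ
    simp only [mem_preimage, mem_closedBall_zero_iff]
    rw [ContinuousLinearMap.opNorm_le_iff zero_le_one]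
    simp only [one_mul]
    rfl)

theorem q1 {Y : Type} [NormedAddCommGroup Y] [NormedSpace ℝ Y] (e : XX ≃L[ℝ] Y) {Γ : Type}
    (h : {p : WeakDual ℝ (StrongDual ℝ Y) | ∀ v, ‖p v‖ ≤ ‖v‖} → Γ → ℝ) (hc : Continuous h)
    (hi : Function.Injective h) (hd : Dense {p | {θ | h p θ ≠ 0}.Countable}) : False := by
  let E : XX →L[ℝ] Y := e
  let E' : Y →L[ℝ] XX := e.symm
  have hp : 0 < (‖E‖ + 1)⁻¹ := by positivity
  refine nv hc hi hd (fun a p => p.1 ((xx a).comp E')) (fun a =>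
    (WeakDual.eval_continuous _).comp continuous_subtype_val) (C := ‖E'‖) (c := (‖E‖ + 1)⁻¹)
    (fun p a b s n h1 h2 h3 => ?_) hp fun d hd => ?_
  · have e1 : ∑ k ∈ Finset.range n, s k * (p.1 ((xx (b k)).comp E') - p.1 ((xx (a k)).comp E')) =
        p.1 ((∑ k ∈ Finset.range n, s k • (xx (b k) - xx (a k))).comp E') := by
      rw [ContinuousLinearMap.finset_sum_comp, map_sum]
      refine Finset.sum_congr rfl fun k _ => ?_
      rw [ContinuousLinearMap.smul_comp, ContinuousLinearMap.sub_comp, map_smul, map_sub]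
      rfl
    rw [e1, mul_comm]
    exact (p.2 _).trans ((ContinuousLinearMap.opNorm_comp_le _ _).trans
      (mul_le_mul_of_nonneg_right (xb a b s n h1 h2 h3) (norm_nonneg _)))
  · obtain ⟨z, z1, z2⟩ := xe hd
    refine ⟨⟨NormedSpace.inclusionInDoubleDual ℝ Y ((‖E‖ + 1)⁻¹ • E z), fun v => ?_⟩, fun a => ?_⟩
    · change ‖v ((‖E‖ + 1)⁻¹ • E z)‖ ≤ ‖v‖
      refine (v.le_opNorm _).trans (mul_le_of_le_one_right (norm_nonneg _) ?_)
      rw [norm_smul, Real.norm_of_nonneg hp.le, inv_mul_le_iff₀ (by positivity)]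
      linarith [E.le_of_opNorm_le_of_le le_rfl z1]
    · change xx a (e.symm ((‖E‖ + 1)⁻¹ • e z)) = _
      rw [map_smul, e.symm_apply_apply, map_smul, z2]
      split_ifs <;> simp

theorem q2 {Γ : Type} (y : Γ → V) (hy : Dense (Submodule.span ℝ (range y) : Set V))
    (hn : ∀ v, IsLUB {r | ∃ p : StrongDual ℝ V, {γ | p (y γ) ≠ 0}.Countable ∧ ‖p‖ ≤ 1 ∧ r = |p v|}
      ‖v‖) : ∃ h : {p : WeakDual ℝ V | ∀ v, ‖p v‖ ≤ ‖v‖} → Γ → ℝ, Continuous h ∧
        Function.Injective h ∧ Dense {p | {θ | h p θ ≠ 0}.Countable} := by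
  let h : {p : WeakDual ℝ V | ∀ v, ‖p v‖ ≤ ‖v‖} → Γ → ℝ := fun p γ => p.1 (y γ)
  have hc : Continuous h := continuous_pi fun γ =>
    (WeakDual.eval_continuous _).comp continuous_subtype_val
  have hi : Function.Injective h := fun a b e => Subtype.ext (ContinuousLinearMap.ext_on hy (by
    rintro _ ⟨i, rfl⟩; exact congrFun e i))
  refine ⟨h, hc, hi, fun p0 => ?_⟩
  rw [(hc.isClosedEmbedding hi).isInducing.closure_eq_preimage_closure_image]
  by_contra hp
  have hv : Convex ℝ (h '' {p | {θ | h p θ ≠ 0}.Countable}) := by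
    rintro _ ⟨p, p1, rfl⟩ _ ⟨q, q1, rfl⟩ s t hs ht hst
    refine ⟨⟨s • p.1 + t • q.1, fun v => ?_⟩, (Countable.union p1 q1).mono fun θ hθ => ?_, rfl⟩
    · change ‖s * p.1 v + t * q.1 v‖ ≤ ‖v‖
      refine (norm_add_le _ _).trans ?_
      rw [norm_mul, norm_mul, Real.norm_of_nonneg hs, Real.norm_of_nonneg ht]
      have := add_le_add (mul_le_mul_of_nonneg_left (p.2 v) hs) (mul_le_mul_of_nonneg_left (q.2 v) ht)
      rwa [← add_mul, hst, one_mul] at this
    · by_contra hne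
      simp only [mem_union, mem_ofPred_eq, not_or, not_not] at hne
      refine hθ ?_
      change s * h p θ + t * h q θ = 0
      rw [hne.1, hne.2]; simp
  obtain ⟨f, u, h1, h2⟩ := geometric_hahn_banach_closed_point hv.closure isClosed_closure hp
  have h3 : (f : (Γ → ℝ) →ₗ[ℝ] ℝ) ∈ Submodule.span ℝ
      (range fun i : Γ => (LinearMap.proj i : (Γ → ℝ) →ₗ[ℝ] ℝ)) :=
    (LinearMap.mem_span_iff_continuous _).2 f.continuous
  have h4 : ∀ g ∈ Submodule.span ℝ (range fun i : Γ => (LinearMap.proj i : (Γ → ℝ) →ₗ[ℝ] ℝ)),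
      ∃ v : V, ∀ p, p.1 v = g (h p) := by
    intro g hg
    induction hg using Submodule.span_induction with
    | mem g hg =>
      obtain ⟨i, rfl⟩ := hg
      exact ⟨y i, fun _ => rfl⟩
    | zero => exact ⟨0, fun p => map_zero p.1⟩
    | add g g' _ _ a b =>
      obtain ⟨x, x1⟩ := a
      obtain ⟨z, z1⟩ := b
      exact ⟨x + z, fun p => by rw [map_add, x1, z1]; rfl⟩
    | smul c g _ a =>
      obtain ⟨x, x1⟩ := a
      exact ⟨c • x, fun p => by rw [map_smul, x1]; rfl⟩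
  obtain ⟨v, hv⟩ := h4 _ h3
  have h5 : ∀ p : StrongDual ℝ V, {γ | p (y γ) ≠ 0}.Countable → ‖p‖ ≤ 1 → p v ≤ u := by
    intro p p1 p2
    have m : ∀ w, ‖p w‖ ≤ ‖w‖ := fun w => (p.le_of_opNorm_le p2 w).trans_eq (one_mul _)
    exact (hv ⟨p, m⟩).trans_le (h1 _ (subset_closure ⟨⟨p, m⟩, p1, rfl⟩)).le
  have h6 : ‖v‖ ≤ u := (hn v).2 (by
    rintro _ ⟨p, p1, p2, rfl⟩
    refine abs_le.2 ⟨neg_le.1 (h5 (-p) (by simpa using p1) (by simpa using p2)), h5 p p1 p2⟩)
  exact absurd ((hv p0).symm.trans_le ((le_abs_self _).trans ((p0.2 v).trans h6))) (not_le.2 h2)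

end Pool.Agent.H.MP_526336
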